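import Mathlib

namespace Pool.Agent.Results.MP_d56e90_lc.SymZFC

open Cardinal hiding univ
open Set

universe u

/-- `A` is symmetric: `A = 2g - A` for some point `g`. -/
def IsSymmetric {G : Type u} [AddCommGroup G] (A : Set G) : Prop :=
  ∃ g : G, A = (fun a => g + g - a) '' A

/-- `A` is monochromatic for the colouring `χ`. -/
def Monochromatic {G : Type u} {r : ℕ} (χ : G → Fin r) (A : Set G) : Prop :=
  ∀ a ∈ A, ∀ b ∈ A, χ a = χ b

lemma free_seq {X : Type u} (lam : Cardinal.{u}) (hlam : lam.IsRegular) (Y : Set X)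
    (hY : lam ≤ #Y) (E : X → X → Set X)
    (hE : ∀ j : ℕ, ∃ ν < lam, ∀ (s : Fin j → X) (x : X), #(Y ∩ ⋃ i, E (s i) x : Set X) < ν)
    (N : ℕ) : ∃ (a : Fin N → X) (Z : Set X), Z ⊆ Y ∧ lam ≤ #Z ∧ (∀ i, a i ∈ Y) ∧
      (∀ i j k, i < j → j < k → a j ∉ E (a i) (a k)) ∧
      ∀ i j, i < j → ∀ x ∈ Z, a j ∉ E (a i) x := by
  induction N with
  | zero => exact ⟨Fin.elim0, Y, subset_rfl, hY, fun i => i.elim0, fun i => i.elim0,
      fun i => i.elim0⟩
  | succ N ih =>
    obtain ⟨a, Z, hZ, h1, h2, h3, h4⟩ := ih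
    obtain ⟨ν, hν, h5⟩ := hE N
    obtain ⟨W, hW, hWν⟩ := le_mk_iff_exists_subset.1 (hν.le.trans h1)
    have key : ∀ x : X, ∃ w : W, ∀ i, w.1 ∉ E (a i) x := by
      intro x
      by_contra hn
      push Not at hn
      refine absurd (h5 a x) (not_lt.2 (hWν ▸ mk_le_mk_of_subset fun w hw => ?_))
      exact ⟨hZ (hW hw), mem_iUnion.2 (hn ⟨w, hw⟩)⟩
    choose f hf using key
    have key2 : ∃ w : W, lam ≤ #(Z ∩ f ⁻¹' {w} : Set X) := by
      by_contra hn
      push Not at hn
      have := (card_iUnion_lt_iff_forall_of_isRegular (t := fun w : W => Z ∩ f ⁻¹' {w}) hlam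
        (hWν ▸ hν)).2 hn
      refine absurd (h1.trans (mk_le_mk_of_subset fun x hx => ?_)) (not_le.2 this)
      exact mem_iUnion.2 ⟨f x, hx, rfl⟩
    obtain ⟨w, hw⟩ := key2
    refine ⟨Fin.snoc (α := fun _ => X) a w.1, Z ∩ f ⁻¹' {w}, inter_subset_left.trans hZ, hw,
      fun i => ?_, fun i j k hij hjk => ?_, fun i j hij x hx => ?_⟩
    · refine Fin.lastCases ?_ (fun i => ?_) i
      · simpa using hZ (hW w.2)
      · simpa using h2 i
    · obtain ⟨j, rfl⟩ := Fin.exists_castSucc_eq.2 (Fin.ne_last_of_lt hjk)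
      obtain ⟨i, rfl⟩ := Fin.exists_castSucc_eq.2 (Fin.ne_last_of_lt hij)
      induction k using Fin.lastCases with
      | last => simpa using h4 i j (by simpa using hij) _ (hW w.2)
      | cast k => simpa using h3 i j k (by simpa using hij) (by simpa using hjk)
    · obtain ⟨i, rfl⟩ := Fin.exists_castSucc_eq.2 (Fin.ne_last_of_lt hij)
      induction j using Fin.lastCases with
      | last =>
        have e : f x = w := hx.2
        simpa [e] using hf x i
      | cast j => simpa using h4 i j (by simpa using hij) x hx.1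

/-- For every cardinal `κ`, every infinite Abelian group `G` with `κ < |G|` and every colouring of
`G` with finitely many colours there is a monochromatic symmetric set of cardinality `≥ κ`. -/
theorem result (κ : Cardinal.{u}) (G : Type u) [AddCommGroup G] [Infinite G] (hκ : κ < #G)
    (r : ℕ) (χ : G → Fin r) :
    ∃ A : Set G, IsSymmetric A ∧ Monochromatic χ A ∧ κ ≤ #A := by
  classical
  by_contra hn
  push Not at hn
  obtain ⟨lam, hlam, hG, hk, hν⟩ : ∃ lam : Cardinal.{u}, lam.IsRegular ∧ lam ≤ #G ∧ κ < lam ∧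
      ∀ j : ℕ, ∃ ν < lam, ∀ t : Fin j → Set G, (∀ i, #(t i) < κ) → #(⋃ i, t i) < ν := by
    rcases lt_or_ge κ ℵ₀ with h | h
    · obtain ⟨n, rfl⟩ := lt_aleph0.1 h
      refine ⟨ℵ₀, isRegular_aleph0, aleph0_le_mk G, h, fun j =>
        ⟨(j * n + 1 : ℕ), natCast_lt_aleph0, fun t ht => ?_⟩⟩
      have h1 := mk_iUnion_le_lift t
      simp only [lift_uzero, mk_fin, lift_natCast] at h1
      refine h1.trans_lt (lt_of_le_of_lt (mul_le_mul_right (ciSup_le' fun i => (ht i).le) _) ?_)
      exact_mod_cast Nat.lt_succ_self _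
    · refine ⟨Order.succ κ, isRegular_succ h, Order.succ_le_of_lt hκ, Order.lt_succ κ, fun j =>
        ⟨κ, Order.lt_succ κ, fun t ht => ?_⟩⟩
      induction j with
      | zero => simpa using aleph0_pos.trans_le h
      | succ j ih =>
        have e : (⋃ i, t i) = t 0 ∪ ⋃ i : Fin j, t i.succ := by
          ext x
          simp [Fin.exists_fin_succ]
        rw [e]
        exact (mk_union_le _ _).trans_lt (add_lt_of_lt h (ht 0) (ih _ fun i => ht _))
  let d : G →+ G := AddMonoidHom.id G + AddMonoidHom.id G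
  have hd : ∀ g, d g = g + g := fun g => rfl
  have hsym : ∀ (g : G) (i : Fin r), #{x | χ x = i ∧ χ (g + g - x) = i} < κ := by
    intro g i
    refine hn _ ⟨g, ?_⟩ fun a ha b hb => ha.1.trans hb.1.symm
    ext x
    constructor
    · intro hx
      exact ⟨g + g - x, ⟨hx.2, by simpa using hx.1⟩, by simp⟩
    · rintro ⟨y, hy, rfl⟩
      exact ⟨hy.2, by simpa using hy.1⟩
  have hsym' : ∀ i : Fin r, #{x | d x = 0 ∧ χ x = i} < κ := by
    intro i
    refine lt_of_le_of_lt (mk_le_mk_of_subset fun x hx => ?_) (hsym 0 i)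
    refine ⟨hx.2, ?_⟩
    have : (0 : G) + 0 - x = x := by
      have h1 : x + x = 0 := hx.1
      rw [add_zero, zero_sub, neg_eq_iff_add_eq_zero, h1]
    rw [this]
    exact hx.2
  have hker : #{x | d x = 0} < lam := by
    obtain ⟨ν, h1, h2⟩ := hν r
    refine lt_of_le_of_lt (mk_le_mk_of_subset fun x hx => ?_) ((h2 _ hsym').trans h1)
    exact mem_iUnion.2 ⟨χ x, hx, rfl⟩
  have hY : lam ≤ #(range d) := by
    by_contra h
    have h1 := (card_iUnion_lt_iff_forall_of_isRegular
      (t := fun y : range d => d ⁻¹' {y.1}) hlam (not_le.1 h)).2 (by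
        rintro ⟨_, g, rfl⟩
        refine lt_of_le_of_lt ?_ hker
        have h3 : ∀ x : d ⁻¹' {d g}, x.1 - g ∈ {x | d x = 0} := by
          intro x
          have : d x.1 = d g := x.2
          simp only [mem_ofPred_eq, map_sub, this, sub_self]
        exact mk_le_of_injective (f := fun x => (⟨x.1 - g, h3 x⟩ : {x | d x = 0})) fun a b e =>
          Subtype.ext (sub_left_injective (congrArg Subtype.val e)))
    have h2 : (⋃ y : range d, d ⁻¹' {y.1}) = univ :=
      eq_univ_of_forall fun x => mem_iUnion.2 ⟨⟨d x, x, rfl⟩, rfl⟩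
    rw [h2, mk_univ] at h1
    exact absurd hG (not_le.2 h1)
  let E : G → G → Set G := fun a b => {x | a ∈ range d ∧ b ∈ range d ∧ χ (x - a) = χ (b - x)}
  have hE : ∀ a b i, #{x | x ∈ E a b ∧ χ (x - a) = i} < κ := by
    intro a b i
    rcases eq_empty_or_nonempty {x | x ∈ E a b ∧ χ (x - a) = i} with e | ⟨y, ⟨⟨a, rfl⟩, ⟨b, rfl⟩, -⟩, -⟩
    · rw [e]
      simpa using zero_le.trans_lt (hsym 0 i)
    · refine lt_of_le_of_lt ?_ (hsym (b - a) i)
      refine mk_le_of_injective (f := fun x => ⟨x.1 - d a, x.2.2, ?_⟩) fun p q e => ?_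
      · have : ∀ z, b - a + (b - a) - (z - d a) = d b - z := fun z => by rw [hd, hd]; abel
        rw [this, ← x.2.1.2.2]
        exact x.2.2
      · exact Subtype.ext (sub_left_injective (congrArg Subtype.val e))
  obtain ⟨a, -, -, -, h2, h3, -⟩ := free_seq lam hlam (range d) hY E (fun j => by
    obtain ⟨ν, h1, h2⟩ := hν (j * r)
    refine ⟨ν, h1, fun s x => lt_of_le_of_lt (mk_le_mk_of_subset fun y hy => ?_)
      (h2 (fun p => {y | y ∈ E (s (finProdFinEquiv.symm p).1) x ∧
        χ (y - s (finProdFinEquiv.symm p).1) = (finProdFinEquiv.symm p).2}) fun p => hE _ _ _)⟩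
    obtain ⟨i, hi⟩ := mem_iUnion.1 hy.2
    exact mem_iUnion.2 ⟨finProdFinEquiv (i, χ (y - s i)), by simpa using hi⟩) (2 ^ r + 1)
  let S : Fin (2 ^ r + 1) → Finset (Fin r) := fun i =>
    (Finset.univ.filter fun k => i < k).image fun k => χ (a k - a i)
  have hS : ∀ i j, i < j → S i ≠ S j := by
    intro i j hij e
    have h4 : χ (a j - a i) ∈ S j := e ▸ Finset.mem_image.2 ⟨j, by simpa using hij, rfl⟩
    obtain ⟨k, hk, e2⟩ := Finset.mem_image.1 h4
    exact h3 i j k hij (by simpa using hk) ⟨h2 i, h2 k, e2.symm⟩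
  have hinj : Function.Injective S := by
    intro i j e
    rcases lt_trichotomy i j with h | h | h
    · exact absurd e (hS i j h)
    · exact h
    · exact absurd e.symm (hS j i h)
  have := Fintype.card_le_of_injective S hinj
  simp at this

end Pool.Agent.Results.MP_d56e90_lc.SymZFC
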